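import Mathlib
import Pool.Agent.SW.Final

/-!
The structure of a counterexample to the noncommutative Singer-Wermer conjecture.
-/

set_option autoImplicit false

namespace Pool.Agent.Results.MP_1eb80b_an.CounterexampleStructure

/-- `x` lies in the Jacobson radical of `A` (tested in the unitization, as in the frozen
statement of the problem). -/
def InRad {A : Type*} [NonUnitalNormedRing A] [NormedSpace ℂ A] [IsScalarTower ℂ A A]
    [SMulCommClass ℂ A A] (x : A) : Prop :=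
  (Unitization.inr x : Unitization ℂ A) ∈ (⊥ : Ideal (Unitization ℂ A)).jacobson

section

variable {A : Type*} [NonUnitalNormedRing A] [NormedSpace ℂ A]

/-- `X` is a two-sided ideal. -/
def IsIdeal (X : Submodule ℂ A) : Prop :=
  ∀ a x : A, x ∈ X → a * x ∈ X ∧ x * a ∈ X

/-- The separating space of `δ`: the limits of `δ xₖ` for sequences `xₖ → 0`. -/
def sepSpace (δ : A →ₗ[ℂ] A) : Set A :=
  {y | ∀ ε > 0, ∃ x, ‖x‖ < ε ∧ ‖δ x - y‖ < ε}

/-- The span of the products `q x q'` with `q, q'` in `Q` and `x` in `X`. -/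
def sandwich (Q X : Submodule ℂ A) : Submodule ℂ A :=
  Submodule.span ℂ {z | ∃ q ∈ Q, ∃ x ∈ X, ∃ q' ∈ Q, z = q * x * q'}

/-- The multiplication algebra of `A`: the unital algebra of operators generated by the left
and the right multiplications. -/
def mulAlgebra (A : Type*) [NonUnitalNormedRing A] [NormedSpace ℂ A] :
    Subalgebra ℂ (Module.End ℂ A) :=
  Algebra.adjoin ℂ ({T | ∃ a : A, ∀ x, T x = a * x} ∪ {T | ∃ a : A, ∀ x, T x = x * a})

/-- `powSucc x k = x ^ (k + 1)`. -/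
def powSucc (x : A) : ℕ → A
  | 0 => x
  | k + 1 => x * powSucc x k

/-- `leftProd a k q = a 0 * (a 1 * ⋯ (a (k - 1) * q))`. -/
def leftProd (a : ℕ → A) : ℕ → A → A
  | 0, q => q
  | k + 1, q => leftProd a k (a k * q)

/-- `rightProd a k q = ((q * a (k - 1)) ⋯ * a 1) * a 0`. -/
def rightProd (a : ℕ → A) : ℕ → A → A
  | 0, q => q
  | k + 1, q => rightProd a k (q * a k)

/-- `opProd T k s = T 0 (T 1 ⋯ (T (k - 1) s))`. -/
def opProd (T : ℕ → Module.End ℂ A) : ℕ → A → A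
  | 0, s => s
  | k + 1, s => opProd T k (T k s)

end

/-- Every counterexample has the following structure. -/
theorem result (A : Type*) [NonUnitalNormedRing A] [NormedSpace ℂ A] [IsScalarTower ℂ A A]
    [SMulCommClass ℂ A A] [CompleteSpace A] (δ : A →ₗ[ℂ] A)
    (hδ : ∀ x y : A, δ (x * y) = δ x * y + x * δ y)
    (hc : ∀ x y : A, InRad ((x * δ x - δ x * x) * y - y * (x * δ x - δ x * x)))
    (h : ∃ x, ¬ InRad (δ x)) :
    ∃ (Ψ : A →ₙₐ[ℂ] PowerSeries ℂ) (χ : A →L[ℂ] ℂ) (n₀ : ℕ) (Q X : Submodule ℂ A),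
      -- (1) the homomorphism onto the power series
      (∀ a n, PowerSeries.coeff n (Ψ a) = χ ((δ ^ n) a) / (n.factorial : ℂ)) ∧
      Function.Surjective Ψ ∧
      1 ≤ n₀ ∧ (∀ j < n₀, Continuous (fun a => PowerSeries.coeff j (Ψ a))) ∧
      (∀ F : PowerSeries ℂ, (∀ j < n₀, PowerSeries.coeff j F = 0) → ∀ ε > 0,
        ∃ a : A, ‖a‖ < ε ∧ Ψ a = F) ∧
      -- (2) the smallest closed ideal outside the kernel
      IsClosed (Q : Set A) ∧ IsIdeal Q ∧ (∀ x ∈ Q, InRad x ∧ x ∈ sepSpace δ) ∧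
      (∃ x ∈ Q, Ψ x ≠ 0) ∧
      (∀ J : Submodule ℂ A, IsClosed (J : Set A) → IsIdeal J → (∃ x ∈ J, Ψ x ≠ 0) → Q ≤ J) ∧
      -- (3) the dense invariant ideal inside the kernel
      IsIdeal X ∧ X ≤ Q ∧ X = sandwich Q X ∧ (∀ x ∈ X, δ x ∈ X) ∧ (∀ x ∈ X, Ψ x = 0) ∧
      (∃ x ∈ X, ∀ k, powSucc x k ≠ 0) ∧
      (∀ (n : ℕ) (q : ℕ → A), (∀ i, q i ∈ Q) → ∀ ε > 0,
        ∃ x ∈ X, ∀ i ≤ n, ‖(δ ^ i) x - q i‖ < ε) ∧
      -- (4) one-sided multiplications
      (∀ a : ℕ → A, ∃ K, ∀ q ∈ Q, ∀ ε > 0, ∃ u : ℕ → A, (∀ j, u j ∈ Q) ∧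
        (∀ j, u j = a j * u (j + 1)) ∧ ‖u 0 - leftProd a K q‖ < ε) ∧
      (∀ a : ℕ → A, ∃ K, ∀ q ∈ Q, ∀ ε > 0, ∃ u : ℕ → A, (∀ j, u j ∈ Q) ∧
        (∀ j, u j = u (j + 1) * a j) ∧ ‖u 0 - rightProd a K q‖ < ε) ∧
      -- (5) operators of the multiplication algebra
      (∀ T : ℕ → Module.End ℂ A, (∀ i, T i ∈ mulAlgebra A) → (∀ i, ∃ x, Ψ (T i x) ≠ 0) →
        ∃ K, ∀ s ∈ sepSpace δ, Ψ s ≠ 0 → ∀ ε > 0, ∃ u : ℕ → A, (∀ j, u j ∈ sepSpace δ) ∧
          (∀ j, u j = T j (u (j + 1))) ∧ ‖u 0 - opProd T K s‖ < ε ∧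
            ∀ k, powSucc (u 0) k ≠ 0) := by
  obtain ⟨Ψ, χ, n₀, Q, X, -, h1, h2, h3, h4, h5, h6, h7, h8, h9, h10, h11, h12, h13, h14, h15,
    h16, h17, h18, h19, h20, h21⟩ := SW.structure_final δ hδ hc h
  have hsep : ∀ y, y ∈ SW.sep δ ↔ y ∈ sepSpace δ := fun y => SW.mem_sep_iff δ y
  have hpow : ∀ (x : A) (k : ℕ), powSucc x k = SW.npowr x k := by
    intro x k
    induction k with
    | zero => rfl
    | succ k ih => show x * powSucc x k = x * SW.npowr x k; rw [ih]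
  have hl : ∀ (a : ℕ → A) (k : ℕ) (q : A), leftProd a k q = SW.leftProd a k q := by
    intro a k
    induction k with
    | zero => intro q; rfl
    | succ k ih => intro q; exact ih _
  have hr : ∀ (a : ℕ → A) (k : ℕ) (q : A), rightProd a k q = SW.rightProd a k q := by
    intro a k
    induction k with
    | zero => intro q; rfl
    | succ k ih => intro q; exact ih _
  have ho : ∀ (T : ℕ → Module.End ℂ A) (k : ℕ) (s : A), opProd T k s = SW.prodE T k s := by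
    intro T k
    induction k with
    | zero => intro s; rfl
    | succ k ih => intro s; exact ih _
  refine ⟨Ψ, χ, n₀, Q, X, h1, h2, h3, h4, h5, h6.1, h6.2, ?_, h9, ?_, h11, h12, ?_, h15, h16, ?_,
    h18, ?_, ?_, ?_⟩
  · exact fun x hx => ⟨h7 x hx, (hsep x).mp (h8 hx)⟩
  · exact fun J hJ1 hJ2 hJ3 => h10 J ⟨hJ1, hJ2⟩ hJ3
  · refine le_antisymm h14 ?_
    refine Submodule.span_le.mpr ?_
    rintro z ⟨q, hq, x, hx, q', hq', rfl⟩
    exact (h11 q' _ (h11 q x hx).1).2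
  · obtain ⟨x, hx, hx2⟩ := h17
    exact ⟨x, hx, fun k => by rw [hpow]; exact hx2 k⟩
  · intro a
    obtain ⟨K, hK⟩ := h19 a
    refine ⟨K, fun q hq ε hε => ?_⟩
    rw [hl]
    exact hK q hq ε hε
  · intro a
    obtain ⟨K, hK⟩ := h20 a
    refine ⟨K, fun q hq ε hε => ?_⟩
    rw [hr]
    exact hK q hq ε hε
  · intro T hT hTx
    obtain ⟨K, hK⟩ := h21 T hT hTx
    refine ⟨K, fun s hs hs2 ε hε => ?_⟩
    obtain ⟨u, hu1, hu2, hu3, hu4⟩ := hK s ((hsep s).mpr hs) hs2 ε hε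
    refine ⟨u, fun j => (hsep _).mp (hu1 j), hu2, by rw [ho]; exact hu3, fun k => ?_⟩
    rw [hpow]
    exact hu4 k

end Pool.Agent.Results.MP_1eb80b_an.CounterexampleStructure
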