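import Mathlib
import Pool.Agent.SW.Criteria

/-!
A criterion for derivations which are centralizing modulo the radical to map into the radical,
and a class of Banach algebras for which the noncommutative Singer-Wermer conjecture holds.
-/

set_option autoImplicit false

namespace Pool.Agent.Results.MP_1eb80b_an.RadicalCriterion

section Plain

variable {A : Type*} [NonUnitalNormedRing A] [NormedSpace ℂ A]

/-- `X` is a two-sided ideal. -/
def IsIdeal (X : Submodule ℂ A) : Prop :=
  ∀ a x : A, x ∈ X → a * x ∈ X ∧ x * a ∈ X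

/-- The separating space of `δ`: the limits of `δ xₖ` for sequences `xₖ → 0`. -/
def sepSpace (δ : A →ₗ[ℂ] A) : Set A :=
  {y | ∀ ε > 0, ∃ x, ‖x‖ < ε ∧ ‖δ x - y‖ < ε}

/-- `powSucc x k = x ^ (k + 1)`. -/
def powSucc (x : A) : ℕ → A
  | 0 => x
  | k + 1 => x * powSucc x k

/-- `leftProd a k q = a 0 * (a 1 * ⋯ (a (k - 1) * q))`. -/
def leftProd (a : ℕ → A) : ℕ → A → A
  | 0, q => q
  | k + 1, q => leftProd a k (a k * q)

/-- `rightProd a k q = ((q * a (k - 1)) ⋯ * a 1) * a 0`. -/
def rightProd (a : ℕ → A) : ℕ → A → A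
  | 0, q => q
  | k + 1, q => rightProd a k (q * a k)

/-- `x` is separated from `J` by a sequence of left multiplications: no product
`a₀ ⋯ aₘ₋₁ x` vanishes, while the sets `a₀ ⋯ aₘ₋₁ J` intersect in `0`. -/
def LeftSep (J : Set A) (x : A) : Prop :=
  ∃ a : ℕ → A, (∀ m, leftProd a m x ≠ 0) ∧
    ∀ w : A, (∀ m, ∃ y ∈ J, w = leftProd a m y) → w = 0

/-- `x` is separated from `J` by a sequence of right multiplications. -/
def RightSep (J : Set A) (x : A) : Prop :=
  ∃ a : ℕ → A, (∀ m, rightProd a m x ≠ 0) ∧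
    ∀ w : A, (∀ m, ∃ y ∈ J, w = rightProd a m y) → w = 0

end Plain

section Rad

variable (A : Type*) [NonUnitalNormedRing A] [NormedSpace ℂ A] [IsScalarTower ℂ A A]
  [SMulCommClass ℂ A A]

/-- The Jacobson radical of `A` (tested in the unitization, as in the frozen statement of the
problem). -/
def rad : Submodule ℂ A where
  carrier := {x | (Unitization.inr x : Unitization ℂ A) ∈ (⊥ : Ideal (Unitization ℂ A)).jacobson}
  add_mem' := by
    intro x y hx hy
    show (Unitization.inr (x + y) : Unitization ℂ A) ∈ (⊥ : Ideal (Unitization ℂ A)).jacobson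
    rw [Unitization.inr_add]
    exact Ideal.add_mem _ hx hy
  zero_mem' := by
    show (Unitization.inr (0 : A) : Unitization ℂ A) ∈ (⊥ : Ideal (Unitization ℂ A)).jacobson
    rw [Unitization.inr_zero]
    exact Ideal.zero_mem _
  smul_mem' := by
    intro c x hx
    have e : (Unitization.inr (c • x) : Unitization ℂ A) =
        Unitization.inl c * Unitization.inr x := by
      ext
      · simp
      · simp
    show (Unitization.inr (c • x) : Unitization ℂ A) ∈ (⊥ : Ideal (Unitization ℂ A)).jacobson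
    rw [e]
    exact Ideal.mul_mem_left _ _ hx

/-- `radPow A m` is the span of the products of `m + 1` elements of the radical. -/
def radPow : ℕ → Submodule ℂ A
  | 0 => rad A
  | m + 1 => Submodule.span ℂ {z | ∃ x ∈ rad A, ∃ y ∈ radPow m, z = x * y}

/-- The elements of the radical which lie in all closed ideals of finite codimension. -/
def finRad : Submodule ℂ A :=
  rad A ⊓ sInf {J | IsClosed (J : Set A) ∧ IsIdeal J ∧ FiniteDimensional ℂ (A ⧸ J)}

/-- The factoring core: the largest subspace `E` of `I = finRad A` with `E = span (I E I)`. -/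
def facCore : Submodule ℂ A :=
  sSup {E | E ≤ finRad A ∧
    E ≤ Submodule.span ℂ {z | ∃ q ∈ finRad A, ∃ x ∈ E, ∃ q' ∈ finRad A, z = q * x * q'}}

variable {A}

/-- The part of the separating space of `δ` in the closure of the factoring core. -/
def critical (δ : A →ₗ[ℂ] A) : Set A :=
  sepSpace δ ∩ closure (facCore A : Set A)

/-- The ideal of `A` generated by all commutators, by the intersection of the (algebraic) powers
of the radical, by the elements all of whose derivatives `δⁿ x` lie in the radical, and by the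
elements `r` of `finRad A` such that the intersection of the sets `rᵐ E rᵐ` is nil, where `E` is
the factoring core. -/
def killIdeal (δ : A →ₗ[ℂ] A) : Submodule ℂ A :=
  sInf {K | IsIdeal K ∧ (∀ a b : A, a * b - b * a ∈ K) ∧
    (∀ x, (∀ m, x ∈ radPow A m) → x ∈ K) ∧
    (∀ x, (∀ n : ℕ, (δ ^ n) x ∈ rad A) → x ∈ K) ∧
    ∀ r ∈ finRad A, (∀ w : A, (∀ m, ∃ y ∈ facCore A, w = powSucc r m * y * powSucc r m) →
      ∃ k, powSucc w k = 0) → r ∈ K}

/-- `δ` is a derivation such that all `[x, δ x]` are central modulo the radical. -/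
def IsCentralizing (δ : A →ₗ[ℂ] A) : Prop :=
  (∀ x y : A, δ (x * y) = δ x * y + x * δ y) ∧
    ∀ x y : A, (x * δ x - δ x * x) * y - y * (x * δ x - δ x * x) ∈ rad A

end Rad

/-- The criterion, and a class of algebras. -/
theorem result (A : Type*) [NonUnitalNormedRing A] [NormedSpace ℂ A] [IsScalarTower ℂ A A]
    [SMulCommClass ℂ A A] [CompleteSpace A] :
    (∀ δ : A →ₗ[ℂ] A, IsCentralizing δ →
      (∀ x ∈ critical δ, (∃ k, powSucc x k ∈ killIdeal δ) ∨ LeftSep (critical δ) x ∨
        RightSep (critical δ) x) → ∀ x, δ x ∈ rad A) ∧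
    (((∀ x ∈ finRad A, (∀ m, x ∈ radPow A m) → ∃ k, powSucc x k = 0) ∨
        IsClosed (⋂ m, (radPow A m : Set A))) →
      ∀ δ : A →ₗ[ℂ] A, IsCentralizing δ → ∀ x, δ x ∈ rad A) := by
  have hrad : ∀ x, x ∈ rad A ↔ SW.InRad x := fun x => Iff.rfl
  have hpow : ∀ (x : A) (k : ℕ), powSucc x k = SW.npowr x k := by
    intro x k
    induction k with
    | zero => rfl
    | succ k ih => show x * powSucc x k = x * SW.npowr x k; rw [ih]
  have hl : ∀ (a : ℕ → A) (k : ℕ) (q : A), leftProd a k q = SW.leftProd a k q := by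
    intro a k
    induction k with
    | zero => intro q; rfl
    | succ k ih => intro q; exact ih _
  have hr : ∀ (a : ℕ → A) (k : ℕ) (q : A), rightProd a k q = SW.rightProd a k q := by
    intro a k
    induction k with
    | zero => intro q; rfl
    | succ k ih => intro q; exact ih _
  have hrp : ∀ m, radPow A m = SW.radPow A m := by
    intro m
    induction m with
    | zero => rfl
    | succ m ih =>
      show Submodule.span ℂ {z | ∃ x ∈ rad A, ∃ y ∈ radPow A m, z = x * y} =
        Submodule.span ℂ {z | ∃ x ∈ SW.radSub A, ∃ y ∈ SW.radPow A m, z = x * y}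
      rw [ih]
      rfl
  have hfin : finRad A = SW.finRad A := by
    ext x
    constructor
    · rintro ⟨h1, h2⟩
      rw [SetLike.mem_coe, Submodule.mem_sInf] at h2
      exact ⟨h1, fun J hJ hJf => h2 J ⟨hJ.1, hJ.2, hJf⟩⟩
    · rintro ⟨h1, h2⟩
      refine ⟨h1, ?_⟩
      rw [SetLike.mem_coe, Submodule.mem_sInf]
      exact fun J hJ => h2 J ⟨hJ.1, hJ.2.1⟩ hJ.2.2
  have hfac : facCore A = SW.facCore A := by
    unfold facCore SW.facCore SW.factoring SW.sandwich
    rw [hfin]
  have hcrit : ∀ (δ : A →ₗ[ℂ] A) (x : A), x ∈ critical δ ↔ x ∈ SW.critical δ := by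
    intro δ x
    unfold critical SW.critical
    rw [hfac, Submodule.mem_inf, SW.mem_sep_iff]
    rfl
  have hkill : ∀ δ : A →ₗ[ℂ] A, SW.killIdeal δ ≤ killIdeal δ → killIdeal δ = SW.killIdeal δ := by
    intro δ h
    refine le_antisymm ?_ h
    refine le_sInf ?_
    rintro K ⟨hK1, hK2⟩
    refine sInf_le ⟨hK1, fun a b => hK2 (Or.inl ⟨a, b, rfl⟩), fun x hx => ?_, fun x hx => ?_,
      fun r hr1 hr2 => ?_⟩
    · exact hK2 (Or.inr (Or.inl fun m => by rw [← hrp]; exact hx m))
    · exact hK2 (Or.inr (Or.inr (Or.inl hx)))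
    · rw [hfin] at hr1
      refine hK2 (Or.inr (Or.inr (Or.inr ⟨hr1, fun w hw => ?_⟩)))
      obtain ⟨k, hk⟩ := hr2 w (fun m => by
        obtain ⟨y, hy, hy2⟩ := hw m
        exact ⟨y, by rw [hfac]; exact hy, by rw [hpow]; exact hy2⟩)
      exact ⟨k, by rw [← hpow]; exact hk⟩
  have hkill' : ∀ δ : A →ₗ[ℂ] A, SW.killIdeal δ ≤ killIdeal δ := by
    intro δ
    refine le_sInf ?_
    rintro K ⟨hK1, hK2, hK3, hK4, hK5⟩
    refine sInf_le ⟨hK1, ?_⟩
    rintro y (⟨a, b, rfl⟩ | hy | hy | ⟨hy1, hy2⟩)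
    · exact hK2 a b
    · exact hK3 y (fun m => by rw [hrp]; exact hy m)
    · exact hK4 y hy
    · refine hK5 y (by rw [hfin]; exact hy1) (fun w hw => ?_)
      obtain ⟨k, hk⟩ := hy2 w (fun m => by
        obtain ⟨z, hz, hz2⟩ := hw m
        exact ⟨z, by rw [← hfac]; exact hz, by rw [← hpow]; exact hz2⟩)
      exact ⟨k, by rw [hpow]; exact hk⟩
  refine ⟨fun δ hδ hJ x => ?_, fun hA δ hδ x => ?_⟩
  · refine SW.criterion δ hδ.1 hδ.2 (fun y hy => ?_) x
    rcases hJ y ((hcrit δ y).mpr hy) with ⟨k, hk⟩ | ⟨a, ha1, ha2⟩ | ⟨a, ha1, ha2⟩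
    · left
      refine ⟨k, ?_⟩
      rw [← hkill δ (hkill' δ), ← hpow]
      exact hk
    · right
      left
      refine ⟨a, fun m => by rw [← hl]; exact ha1 m, fun w hw => ha2 w fun m => ?_⟩
      obtain ⟨z, hz, hz2⟩ := hw m
      exact ⟨z, (hcrit δ z).mpr hz, by rw [hl]; exact hz2⟩
    · right
      right
      refine ⟨a, fun m => by rw [← hr]; exact ha1 m, fun w hw => ha2 w fun m => ?_⟩
      obtain ⟨z, hz, hz2⟩ := hw m
      exact ⟨z, (hcrit δ z).mpr hz, by rw [hr]; exact hz2⟩
  · refine SW.criterion_class ?_ δ hδ.1 hδ.2 x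
    rcases hA with h | h
    · left
      intro y hy hy2
      obtain ⟨k, hk⟩ := h y (by rw [hfin]; exact hy) (fun m => by rw [hrp]; exact hy2 m)
      exact ⟨k, by rw [← hpow]; exact hk⟩
    · right
      rw [Submodule.coe_iInf]
      simp only [hrp] at h
      exact h

end Pool.Agent.Results.MP_1eb80b_an.RadicalCriterion
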