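import Mathlib
import Pool.Agent.SW.Growth

/-!
A growth condition on spectral radii under which a derivation which is centralizing modulo the
radical maps into the radical.
-/

set_option autoImplicit false

namespace Pool.Agent.Results.MP_1eb80b_an.SpectralGrowth

/-- `x` lies in the Jacobson radical of `A` (tested in the unitization, as in the frozen
statement of the problem). -/
def InRad {A : Type*} [NonUnitalNormedRing A] [NormedSpace ℂ A] [IsScalarTower ℂ A A]
    [SMulCommClass ℂ A A] (x : A) : Prop :=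
  (Unitization.inr x : Unitization ℂ A) ∈ (⊥ : Ideal (Unitization ℂ A)).jacobson

/-- The separating space of `δ`: the limits of `δ xₖ` for sequences `xₖ → 0`. -/
def sepSpace {A : Type*} [NonUnitalNormedRing A] [NormedSpace ℂ A] (δ : A →ₗ[ℂ] A) : Set A :=
  {y | ∀ ε > 0, ∃ x, ‖x‖ < ε ∧ ‖δ x - y‖ < ε}

/-- If the spectral radii of `δⁿ x` are at most `Mₙ` for infinitely many `n`, for every `x` in
the radical and in the separating space, then `δ` maps `A` into the radical. -/
theorem result (A : Type*) [NonUnitalNormedRing A] [NormedSpace ℂ A] [IsScalarTower ℂ A A]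
    [SMulCommClass ℂ A A] [CompleteSpace A] (δ : A →ₗ[ℂ] A)
    (hδ : ∀ x y : A, δ (x * y) = δ x * y + x * δ y)
    (hc : ∀ x y : A, InRad ((x * δ x - δ x * x) * y - y * (x * δ x - δ x * x)))
    (M : ℕ → ℝ)
    (hM : ∀ x, InRad x → x ∈ sepSpace δ → ∀ N : ℕ, ∃ n ≥ N,
      ∀ z ∈ quasispectrum ℂ ((δ ^ n) x), ‖z‖ ≤ M n) (x : A) : InRad (δ x) := by
  refine SW.growth δ hδ hc M (fun y hy1 hy2 => ?_) x
  rw [Filter.frequently_atTop]
  exact hM y hy1 ((SW.mem_sep_iff δ y).mp hy2)

end Pool.Agent.Results.MP_1eb80b_an.SpectralGrowth
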